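import Mathlib

namespace Pool.Agent.Results.MP_93535d_co.Exists

open Finset

variable {V : Type} [Fintype V]

/-- Eccentricity. -/
noncomputable def ecc (G : SimpleGraph V) (v : V) : ℕ := univ.sup fun u => G.dist u v

/-- The broadcast domination number. -/
noncomputable def gammaB (G : SimpleGraph V) : ℕ :=
  sInf {c | ∃ f : V → ℕ, (∀ v, f v ≤ ecc G v) ∧ (∀ u, ∃ v, 1 ≤ f v ∧ G.dist u v ≤ f v) ∧
    c = ∑ v, f v}

/-- The multipacking number. -/
noncomputable def mp (G : SimpleGraph V) : ℕ :=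
  sSup {c | ∃ M : Finset V, (∀ v, ∀ k, 1 ≤ k → (M.filter fun u => G.dist u v ≤ k).card ≤ k) ∧
    c = M.card}

/-- The fractional broadcast number: the optimum of the linear relaxation. -/
noncomputable def gammaBF (G : SimpleGraph V) : ℝ :=
  sInf {c | ∃ x : V → ℕ → ℝ, (∀ v k, 0 ≤ x v k) ∧
    (∀ u, 1 ≤ ∑ v, ∑ k ∈ (Icc 1 (ecc G v)).filter (fun k => G.dist u v ≤ k), x v k) ∧
    c = ∑ v, ∑ k ∈ Icc 1 (ecc G v), k * x v k}

def D (a b : Fin 24) : ℕ :=
  [0, 1, 2, 2, 1, 2, 3, 2, 1, 2, 2, 1].getD ((a.val % 12 + 12 - b.val % 12) % 12) 0 +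
    if a.val / 12 = b.val / 12 then 0 else 1

/-- The Cartesian product of `K₂` and the circulant graph `C₁₂(1, 4)`. -/
def G0 : SimpleGraph (Fin 24) where
  Adj a b := D a b = 1
  symm := ⟨by decide +kernel⟩
  loopless := ⟨by decide +kernel⟩

instance : DecidableRel G0.Adj := fun a b => inferInstanceAs (Decidable (D a b = 1))

theorem D_zero : ∀ u v, D u v = 0 → u = v := by decide +kernel
theorem D_self : ∀ u, D u u = 0 := by decide +kernel
theorem D_step : ∀ u v, D u v ≠ 0 → ∃ w, G0.Adj u w ∧ D w v + 1 = D u v := by decide +kernel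
theorem D_lip : ∀ u w v, G0.Adj u w → D u v ≤ D w v + 1 := by decide +kernel

theorem exists_walk (n : ℕ) : ∀ u v, D u v = n → ∃ p : G0.Walk u v, p.length = n := by
  induction n with
  | zero =>
    intro u v h
    obtain rfl := D_zero u v h
    exact ⟨SimpleGraph.Walk.nil, rfl⟩
  | succ n ih =>
    intro u v h
    obtain ⟨w, hw, hd⟩ := D_step u v (by omega)
    obtain ⟨p, hp⟩ := ih w v (by omega)
    exact ⟨SimpleGraph.Walk.cons hw p, by simp [hp]⟩

theorem D_le_length {u v : Fin 24} (p : G0.Walk u v) : D u v ≤ p.length := by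
  induction p with
  | nil => simp [D_self]
  | cons h p ih =>
    simp only [SimpleGraph.Walk.length_cons]
    exact le_trans (D_lip _ _ _ h) (by omega)

theorem reach (u v : Fin 24) : G0.Reachable u v := by
  obtain ⟨p, _⟩ := exists_walk _ u v rfl
  exact ⟨p⟩

theorem dist_eq (u v : Fin 24) : G0.dist u v = D u v := by
  apply le_antisymm
  · obtain ⟨p, hp⟩ := exists_walk _ u v rfl
    rw [← hp]
    exact SimpleGraph.dist_le p
  · obtain ⟨p, hp⟩ := (reach u v).exists_walk_length_eq_dist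
    rw [← hp]
    exact D_le_length p

theorem ecc_eq (v : Fin 24) : ecc G0 v = 4 := by
  unfold ecc
  simp only [dist_eq]
  revert v
  decide +kernel

theorem ball : ∀ v : Fin 24, ∀ k ≤ 4, 1 ≤ k →
    (univ.filter fun u => D u v ≤ k).card ≤ 8 * k ∧
    (k ≤ 3 → (univ.filter fun u => D u v ≤ k).card ≤ 6 * k + 5 * (k / 2)) := by
  decide +kernel

theorem ball2 : ∀ u : Fin 24, (univ.filter fun v => D u v ≤ 2).card = 16 := by decide +kernel

theorem three : ∀ a b c : Fin 24, a < b → b < c →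
    (∃ v, D a v ≤ 2 ∧ D b v ≤ 2 ∧ D c v ≤ 2) ∨ (∃ v, D a v ≤ 1 ∧ D b v ≤ 1) ∨
      (∃ v, D a v ≤ 1 ∧ D c v ≤ 1) ∨ ∃ v, D b v ≤ 1 ∧ D c v ≤ 1 := by
  decide +kernel

theorem mp_le : mp G0 ≤ 2 := by
  refine csSup_le' ?_
  rintro c ⟨M, hM, rfl⟩
  simp only [dist_eq] at hM
  by_contra hc
  have h3 : 3 ≤ M.card := by omega
  let e := M.orderEmbOfCardLe h3
  have hm : ∀ i, e i ∈ M := fun i => M.orderEmbOfCardLe_mem h3 i
  have h01 : e 0 < e 1 := e.strictMono (by decide)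
  have h12 : e 1 < e 2 := e.strictMono (by decide)
  have pr : ∀ a ∈ M, ∀ b ∈ M, a < b → ¬ ∃ v, D a v ≤ 1 ∧ D b v ≤ 1 := by
    rintro a ha b hb hab ⟨v, h1, h2⟩
    have := Finset.one_lt_card.2 ⟨a, (mem_filter (p := fun u => D u v ≤ 1)).2 ⟨ha, h1⟩, b,
      mem_filter.2 ⟨hb, h2⟩, hab.ne⟩
    have := hM v 1 le_rfl
    omega
  rcases three _ _ _ h01 h12 with ⟨v, h1, h2, h3⟩ | h | h | h
  · have : 2 < (M.filter fun u => D u v ≤ 2).card := Finset.two_lt_card_iff.2 ⟨e 0, e 1, e 2,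
      (mem_filter (p := fun u => D u v ≤ 2)).2 ⟨hm 0, h1⟩, mem_filter.2 ⟨hm 1, h2⟩,
      mem_filter.2 ⟨hm 2, h3⟩, h01.ne, (h01.trans h12).ne, h12.ne⟩
    have := hM v 2 (by norm_num)
    omega
  · exact pr _ (hm 0) _ (hm 1) h01 h
  · exact pr _ (hm 0) _ (hm 2) (h01.trans h12) h
  · exact pr _ (hm 1) _ (hm 2) h12 h

theorem cover {W : Type} [Fintype W] (d : W → W → ℕ) (hW : Fintype.card W = 24)
    (hb : ∀ v k, k ≤ 3 → 1 ≤ k → (univ.filter fun u => d u v ≤ k).card ≤ 6 * k + 5 * (k / 2))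
    (f : W → ℕ) (hf : ∀ u, ∃ v, 1 ≤ f v ∧ d u v ≤ f v) : 4 ≤ ∑ v, f v := by
  classical
  by_contra hc
  have h1 : ∀ v, f v ≤ 3 := fun v => by
    have := Finset.single_le_sum (f := f) (fun i _ => Nat.zero_le _) (mem_univ v)
    omega
  have h2 : (univ : Finset W) ⊆ univ.biUnion fun v =>
      if 1 ≤ f v then univ.filter fun u => d u v ≤ f v else ∅ := fun u _ => by
    obtain ⟨v, h3, h4⟩ := hf u
    exact mem_biUnion.2 ⟨v, mem_univ _, by simp [h3, h4]⟩
  have h3 := (card_le_card h2).trans card_biUnion_le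
  have h4 : ∑ v, (if 1 ≤ f v then univ.filter fun u => d u v ≤ f v else ∅).card ≤
      ∑ v, (6 * f v + 5 * (f v / 2)) := sum_le_sum fun v _ => by
    split_ifs with h
    · exact hb v _ (h1 v) h
    · simp
  have h5 : ∑ v, 2 * (f v / 2) ≤ ∑ v, f v := sum_le_sum fun v _ => Nat.mul_div_le _ _
  rw [sum_add_distrib, ← mul_sum, ← mul_sum] at h4
  rw [← mul_sum] at h5
  rw [card_univ, hW] at h3
  omega

theorem gammaB_mem {W : Type} [Fintype W] (G : SimpleGraph W) (h : ∀ v, 1 ≤ ecc G v) :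
    ∃ f : W → ℕ, (∀ u, ∃ v, 1 ≤ f v ∧ G.dist u v ≤ f v) ∧ gammaB G = ∑ v, f v := by
  have : {c | ∃ f : W → ℕ, (∀ v, f v ≤ ecc G v) ∧ (∀ u, ∃ v, 1 ≤ f v ∧ G.dist u v ≤ f v) ∧
      c = ∑ v, f v}.Nonempty := ⟨_, fun _ => 1, h, fun u => ⟨u, le_rfl, by simp⟩, rfl⟩
  obtain ⟨f, -, h1, h2⟩ := Nat.sInf_mem this
  exact ⟨f, h1, h2⟩

theorem gammaB_ge : 4 ≤ gammaB G0 := by
  obtain ⟨f, hf, h⟩ := gammaB_mem G0 fun v => by rw [ecc_eq]; norm_num
  rw [h]
  refine cover D (Fintype.card_fin _) (fun v k h1 h2 => (ball v k (by omega) h2).2 h1) f fun u => ?_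
  obtain ⟨v, h1, h2⟩ := hf u
  exact ⟨v, h1, by rwa [dist_eq] at h2⟩

theorem gammaBF_eq : gammaBF G0 = 3 := by
  refine IsLeast.csInf_eq ⟨⟨fun _ k => if k = 2 then 1 / 16 else 0, fun v k => by
    dsimp only; split_ifs <;> norm_num, fun u => ?_, ?_⟩, ?_⟩
  · simp only [ecc_eq, dist_eq, sum_ite_eq', mem_filter, mem_Icc]
    rw [← sum_filter, sum_const]
    simp only [Nat.one_le_ofNat, Nat.reduceLeDiff, and_self, true_and, ball2]
    norm_num
  · simp only [ecc_eq, mul_ite, mul_zero, sum_ite_eq']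
    norm_num
  · rintro c ⟨x, hx, h1, rfl⟩
    simp only [ecc_eq, dist_eq] at h1 ⊢
    have h2 := sum_le_sum fun u (_ : u ∈ (univ : Finset (Fin 24))) => h1 u
    rw [sum_comm] at h2
    have h3 : ∀ v : Fin 24, ∑ u : Fin 24, ∑ k ∈ (Icc 1 4).filter (fun k => D u v ≤ k), x v k ≤
        8 * ∑ k ∈ Icc (1 : ℕ) 4, (k : ℝ) * x v k := fun v => by
      simp only [sum_filter]
      rw [sum_comm, mul_sum]
      refine sum_le_sum fun k hk => ?_
      rw [← sum_filter, sum_const, nsmul_eq_mul, ← mul_assoc]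
      refine mul_le_mul_of_nonneg_right ?_ (hx v k)
      exact_mod_cast (ball v k (mem_Icc.1 hk).2 (mem_Icc.1 hk).1).1
    have h4 := h2.trans (sum_le_sum fun v _ => h3 v)
    rw [← mul_sum] at h4
    simp only [sum_const, card_univ, Fintype.card_fin, nsmul_eq_mul] at h4
    push_cast at h4
    linarith

/-- A connected graph with integral `γ_{b,f}` and `mp < γ_{b,f} < γ_b`. -/
theorem result : ∃ (n : ℕ) (G : SimpleGraph (Fin n)), G.Connected ∧ (∃ g : ℤ, gammaBF G = g) ∧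
    (mp G : ℝ) < gammaBF G ∧ gammaBF G < gammaB G := by
  have h1 : (mp G0 : ℝ) ≤ 2 := by exact_mod_cast mp_le
  have h2 : (4 : ℝ) ≤ gammaB G0 := by exact_mod_cast gammaB_ge
  exact ⟨24, G0, ⟨reach⟩, ⟨3, by rw [gammaBF_eq]; norm_num⟩, by rw [gammaBF_eq]; linarith,
    by rw [gammaBF_eq]; linarith⟩

end Pool.Agent.Results.MP_93535d_co.Exists
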